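import Pool.Agent.helper37.P2.SpecD

/-! # Row NET of project P2: bounded holomorphic functions are totally bounded on the half disc -/

set_option autoImplicit false

open scoped ContDiff Topology
open MeasureTheory Filter Set Metric MvPolynomial Pool.Agent.helper37.QA

namespace Pool.Agent.P2

/-- the Taylor coefficients -/
noncomputable def NET_a (γ : ℂ → ℂ) (n : ℕ) : ℂ := (n.factorial : ℂ)⁻¹ * iteratedDeriv n γ 0

theorem NET_coef (R : ℝ) (γ : ℂ → ℂ) (hγ : DifferentiableOn ℂ γ (ball 0 1))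
    (hR : ∀ ξ ∈ ball (0 : ℂ) 1, ‖γ ξ‖ ≤ R) (n : ℕ) : ‖NET_a γ n‖ ≤ R * (4 / 3) ^ n := by
  have hsub : closedBall (0 : ℂ) (3 / 4) ⊆ ball 0 1 := closedBall_subset_ball (by norm_num)
  have hd : DiffContOnCl ℂ γ (ball 0 (3 / 4)) := by
    refine DifferentiableOn.diffContOnCl ?_
    refine hγ.mono ?_
    rw [closure_ball (0 : ℂ) (by norm_num)]
    exact hsub
  have h := Complex.norm_iteratedDeriv_le_of_forall_mem_sphere_norm_le n
    (by norm_num : (0 : ℝ) < 3 / 4) hd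
    (fun z hz => hR z (hsub (sphere_subset_closedBall hz)))
  have hfac : (0 : ℝ) < (n.factorial : ℝ) := by exact_mod_cast Nat.factorial_pos n
  unfold NET_a
  rw [norm_mul, norm_inv, Complex.norm_natCast]
  calc ((n.factorial : ℝ))⁻¹ * ‖iteratedDeriv n γ 0‖
      ≤ ((n.factorial : ℝ))⁻¹ * ((n.factorial : ℝ) * R / (3 / 4) ^ n) :=
        mul_le_mul_of_nonneg_left h (inv_nonneg.2 hfac.le)
    _ = R * (4 / 3) ^ n := by
        have e : (4 / 3 : ℝ) ^ n = ((3 / 4 : ℝ) ^ n)⁻¹ := by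
          rw [← inv_pow]; norm_num
        rw [e]
        field_simp

theorem NET_tail (R r : ℝ) (hr : 0 < r) : ∃ N : ℕ, ∀ γ : ℂ → ℂ,
    DifferentiableOn ℂ γ (ball 0 1) → (∀ ξ ∈ ball (0 : ℂ) 1, ‖γ ξ‖ ≤ R) →
    ∀ ζ ∈ closedBall (0 : ℂ) (1 / 2),
      ‖(∑ n ∈ Finset.range N, NET_a γ n * ζ ^ n) - γ ζ‖ ≤ r / 2 := by
  obtain ⟨N, hN⟩ : ∃ N : ℕ, (2 / 3 : ℝ) ^ N < r / (6 * (|R| + 1)) :=
    exists_pow_lt_of_lt_one (by positivity) (by norm_num)
  refine ⟨N, fun γ hγ hR ζ hζ => ?_⟩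
  have hR0 : 0 ≤ R := le_trans (norm_nonneg _) (hR 0 (mem_ball_self (by norm_num)))
  have hζ1 : ζ ∈ ball (0 : ℂ) 1 := closedBall_subset_ball (by norm_num) hζ
  have hζn : ‖ζ‖ ≤ 1 / 2 := by rwa [mem_closedBall_zero_iff] at hζ
  have hs : HasSum (fun n : ℕ => NET_a γ n * ζ ^ n) (γ ζ) := by
    have h := Complex.hasSum_taylorSeries_on_ball hγ hζ1
    have e : (fun n : ℕ => NET_a γ n * ζ ^ n) =
        fun n : ℕ => ((n.factorial : ℂ))⁻¹ • (ζ - 0) ^ n • iteratedDeriv n γ 0 := by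
      funext n
      unfold NET_a
      rw [smul_eq_mul, smul_eq_mul, sub_zero]
      ring
    rw [e]
    exact h
  have hb : ∀ n : ℕ, ‖NET_a γ n * ζ ^ n‖ ≤ R * (2 / 3) ^ n := by
    intro n
    rw [norm_mul, norm_pow]
    calc ‖NET_a γ n‖ * ‖ζ‖ ^ n ≤ (R * (4 / 3) ^ n) * (1 / 2) ^ n :=
          mul_le_mul (NET_coef R γ hγ hR n) (pow_le_pow_left₀ (norm_nonneg _) hζn n)
            (by positivity) (by positivity)
      _ = R * (2 / 3) ^ n := by
          rw [mul_assoc, ← mul_pow]; norm_num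
  have h := norm_sub_le_of_geometric_bound_of_hasSum (by norm_num : (2 / 3 : ℝ) < 1) hb hs N
  refine le_trans h ?_
  have hR1 : (0 : ℝ) < |R| + 1 := by positivity
  have h1 : R ≤ |R| + 1 := le_trans (le_abs_self R) (by linarith)
  have h2 : R * (2 / 3) ^ N ≤ (|R| + 1) * (r / (6 * (|R| + 1))) :=
    mul_le_mul h1 hN.le (by positivity) hR1.le
  have h3 : (|R| + 1) * (r / (6 * (|R| + 1))) = r / 6 := by
    field_simp
  rw [h3] at h2
  have h4 : R * (2 / 3) ^ N / (1 - 2 / 3) = 3 * (R * (2 / 3) ^ N) := by ring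
  rw [h4]
  linarith

theorem NET : NET_stmt := by
  classical
  intro R r hr
  obtain ⟨N, hN⟩ := NET_tail R r hr
  have hδ : (0 : ℝ) < r / (2 * (N + 1)) := by positivity
  obtain ⟨t, -, htf, htc⟩ :=
    (isCompact_closedBall (0 : ℂ) (|R| * (4 / 3) ^ N)).finite_cover_balls hδ
  have : Fintype t := htf.fintype
  let e := Fintype.equivFin (Fin N → t)
  refine ⟨Fintype.card (Fin N → t),
    fun b ζ => ∑ n : Fin N, ((e.symm b n : t) : ℂ) * ζ ^ (n : ℕ), ?_, ?_⟩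
  · intro b
    refine Differentiable.fun_sum fun n _ => ?_
    exact (differentiable_const _).mul (differentiable_id.pow _)
  · intro γ hγ hR
    have hR0 : 0 ≤ R := le_trans (norm_nonneg _) (hR 0 (mem_ball_self (by norm_num)))
    have hsel : ∀ n : Fin N, ∃ x : t, ‖NET_a γ n - (x : ℂ)‖ ≤ r / (2 * (N + 1)) := by
      intro n
      have h1 : NET_a γ n ∈ closedBall (0 : ℂ) (|R| * (4 / 3) ^ N) := by
        rw [mem_closedBall_zero_iff]
        refine le_trans (NET_coef R γ hγ hR n) ?_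
        rw [abs_of_nonneg hR0]
        exact mul_le_mul_of_nonneg_left
          (pow_le_pow_right₀ (by norm_num) n.2.le) hR0
      have h2 := htc h1
      rw [mem_iUnion₂] at h2
      obtain ⟨x, hx, hx2⟩ := h2
      rw [mem_ball, dist_eq_norm] at hx2
      exact ⟨⟨x, hx⟩, hx2.le⟩
    choose x hx using hsel
    refine ⟨e x, ?_⟩
    intro ζ hζ
    have hζn : ‖ζ‖ ≤ 1 / 2 := by rwa [mem_closedBall_zero_iff] at hζ
    have hζ1 : ‖ζ‖ ≤ 1 := by linarith
    have h1 := hN γ hγ hR ζ hζ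
    rw [Finset.sum_range] at h1
    have h2 : ‖(∑ n : Fin N, NET_a γ n * ζ ^ (n : ℕ)) -
        ∑ n : Fin N, ((x n : t) : ℂ) * ζ ^ (n : ℕ)‖ ≤ r / 2 := by
      rw [← Finset.sum_sub_distrib]
      refine le_trans (norm_sum_le _ _) ?_
      have h3 : ∀ n ∈ (Finset.univ : Finset (Fin N)),
          ‖NET_a γ n * ζ ^ (n : ℕ) - ((x n : t) : ℂ) * ζ ^ (n : ℕ)‖ ≤ r / (2 * (N + 1)) := by
        intro n _
        rw [← sub_mul, norm_mul, norm_pow]
        have h4 : ‖ζ‖ ^ (n : ℕ) ≤ 1 := pow_le_one₀ (norm_nonneg _) hζ1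
        calc ‖NET_a γ n - ((x n : t) : ℂ)‖ * ‖ζ‖ ^ (n : ℕ)
            ≤ (r / (2 * (N + 1))) * 1 :=
              mul_le_mul (hx n) h4 (by positivity) hδ.le
          _ = r / (2 * (N + 1)) := mul_one _
      refine le_trans (Finset.sum_le_sum h3) ?_
      rw [Finset.sum_const, Finset.card_univ, Fintype.card_fin, nsmul_eq_mul]
      rw [mul_div_assoc', div_le_div_iff₀ (by positivity) (by norm_num)]
      nlinarith
    have h5 : e.symm (e x) = x := e.symm_apply_apply x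
    show ‖γ ζ - ∑ n : Fin N, ((e.symm (e x) n : t) : ℂ) * ζ ^ (n : ℕ)‖ ≤ r
    rw [h5]
    have h6 : γ ζ - ∑ n : Fin N, ((x n : t) : ℂ) * ζ ^ (n : ℕ) =
        -((∑ n : Fin N, NET_a γ n * ζ ^ (n : ℕ)) - γ ζ) +
        ((∑ n : Fin N, NET_a γ n * ζ ^ (n : ℕ)) -
          ∑ n : Fin N, ((x n : t) : ℂ) * ζ ^ (n : ℕ)) := by ring
    rw [h6]
    refine le_trans (norm_add_le _ _) ?_
    rw [norm_neg]
    linarith

end Pool.Agent.P2
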