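import Pool.Agent.helper56.P2.SpecW

/-! # Row WPL of project P2 -/

set_option autoImplicit false

open scoped ContDiff Topology ComplexConjugate ENNReal
open MeasureTheory Filter Set Metric MvPolynomial Pool.Agent.helper37.QA

namespace Pool.Agent.P2W

open Pool.Agent.P2

theorem WPL_eta_one (z : ℂ) (hz : ‖z‖ ≤ 1 / 2) : eta z = 1 := by
  unfold eta
  refine Real.smoothTransition.one_of_one_le ?_
  rw [Complex.normSq_eq_norm_sq]
  have h : ‖z‖ ^ 2 ≤ (1 / 2) ^ 2 := pow_le_pow_left₀ (norm_nonneg _) hz 2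
  linarith

theorem WPL_eta_zero (z : ℂ) (hz : 9 / 10 ≤ ‖z‖) : eta z = 0 := by
  unfold eta
  refine Real.smoothTransition.zero_of_nonpos ?_
  rw [Complex.normSq_eq_norm_sq]
  have h : (9 / 10 : ℝ) ^ 2 ≤ ‖z‖ ^ 2 := pow_le_pow_left₀ (by norm_num) hz 2
  linarith

theorem WPL_eta_cont : Continuous eta := by
  unfold eta
  exact Real.smoothTransition.continuous.comp
    (continuous_const.sub (continuous_const.mul Complex.continuous_normSq))

theorem WPL_phi_cont (g : ℂ × ℂ → ℝ) (τ s : ℝ) (hs : s < τ)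
    (hg : ContinuousOn g (P2U.TB 1 τ)) :
    ContinuousOn (fun p : ℂ × ℂ => eta p.1 ^ 2 * g p)
      (closedBall (0 : ℂ) (9 / 10) ×ˢ closedBall (0 : ℂ) s) := by
  refine ContinuousOn.mul ?_ (hg.mono ?_)
  · exact ((WPL_eta_cont.comp continuous_fst).pow 2).continuousOn
  · rintro ⟨a, b⟩ ⟨ha, hb⟩
    rw [mem_closedBall_zero_iff] at ha hb
    exact ⟨lt_of_le_of_lt ha (by norm_num), lt_of_le_of_lt hb hs⟩

/-- the inner function is integrable -/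
theorem WPL_inner (g : ℂ × ℂ → ℝ) (τ : ℝ) (hg : ContinuousOn g (P2U.TB 1 τ)) (v : ℂ)
    (hv : ‖v‖ < τ) : Integrable (fun ξ : ℂ => eta ξ ^ 2 * g (ξ, v)) := by
  have h1 : ContinuousOn (fun ξ : ℂ => eta ξ ^ 2 * g (ξ, v)) (closedBall (0 : ℂ) (9 / 10)) := by
    refine ContinuousOn.mul (WPL_eta_cont.pow 2).continuousOn ?_
    refine hg.comp (by fun_prop) ?_
    intro ξ hξ
    rw [mem_closedBall_zero_iff] at hξ
    exact ⟨lt_of_le_of_lt hξ (by norm_num), hv⟩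
  have h2 : IntegrableOn (fun ξ : ℂ => eta ξ ^ 2 * g (ξ, v)) (closedBall (0 : ℂ) (9 / 10)) :=
    h1.integrableOn_compact (isCompact_closedBall _ _)
  refine (integrableOn_iff_integrable_of_support_subset ?_).1 h2
  intro ξ hξ
  rw [mem_closedBall_zero_iff]
  by_contra hlt
  apply hξ
  show eta ξ ^ 2 * g (ξ, v) = 0
  rw [WPL_eta_zero ξ (not_le.1 hlt).le]
  ring

/-- the outer function is integrable -/
theorem WPL_outer (g : ℂ × ℂ → ℝ) (τ s : ℝ) (hs : s < τ) (hg : ContinuousOn g (P2U.TB 1 τ)) :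
    IntegrableOn (fun v : ℂ => ∫ ξ : ℂ, eta ξ ^ 2 * g (ξ, v)) (ball (0 : ℂ) s) := by
  have h1 : IntegrableOn (fun p : ℂ × ℂ => eta p.1 ^ 2 * g p)
      (closedBall (0 : ℂ) (9 / 10) ×ˢ closedBall (0 : ℂ) s) :=
    (WPL_phi_cont g τ s hs hg).integrableOn_compact
      ((isCompact_closedBall _ _).prod (isCompact_closedBall _ _))
  have h2 : IntegrableOn (fun p : ℂ × ℂ => eta p.1 ^ 2 * g p)
      (closedBall (0 : ℂ) (9 / 10) ×ˢ ball (0 : ℂ) s) :=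
    h1.mono_set (Set.prod_mono le_rfl ball_subset_closedBall)
  have h3 : Integrable (fun p : ℂ × ℂ => eta p.1 ^ 2 * g p)
      (((volume : Measure ℂ).restrict (closedBall (0 : ℂ) (9 / 10))).prod
        ((volume : Measure ℂ).restrict (ball (0 : ℂ) s))) := by
    rw [Measure.prod_restrict, ← Measure.volume_eq_prod]
    exact h2
  have h4 := h3.integral_prod_right
  have h5 : (fun v : ℂ => ∫ ξ : ℂ, eta ξ ^ 2 * g (ξ, v)) = fun v : ℂ =>
      ∫ ξ in closedBall (0 : ℂ) (9 / 10), eta ξ ^ 2 * g (ξ, v) := by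
    funext v
    symm
    refine setIntegral_eq_integral_of_forall_compl_eq_zero ?_
    intro ξ hξ
    rw [mem_closedBall_zero_iff, not_le] at hξ
    rw [WPL_eta_zero ξ hξ.le]
    ring
  rw [h5]
  exact h4

theorem WPL_nonneg (g : ℂ × ℂ → ℝ) (τ : ℝ) (hg0 : ∀ p ∈ P2U.TB 1 τ, 0 ≤ g p) (v : ℂ)
    (hv : ‖v‖ < τ) (ξ : ℂ) : 0 ≤ eta ξ ^ 2 * g (ξ, v) := by
  by_cases h : ‖ξ‖ < 1
  · exact mul_nonneg (sq_nonneg _) (hg0 _ ⟨h, hv⟩)
  · rw [WPL_eta_zero ξ (by linarith [not_lt.1 h])]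
    simp

/-- the lower integral over the region -/
theorem WPL_tonelli (F : ℂ × ℂ → ℝ≥0∞) (ξ0 : ℂ) (ρ s : ℝ)
    (hF : AEMeasurable F (((volume : Measure ℂ).restrict (ball ξ0 (2 * ρ))).prod
      ((volume : Measure ℂ).restrict (ball (0 : ℂ) s)))) :
    ∫⁻ q in RG ξ0 ρ s, F q =
      ∫⁻ v in ball (0 : ℂ) s, ∫⁻ ξ in ball ξ0 (2 * ρ), F (ξ, v) := by
  have hset : RG ξ0 ρ s = ball ξ0 (2 * ρ) ×ˢ ball (0 : ℂ) s := by
    ext ⟨a, b⟩
    constructor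
    · rintro ⟨h1, h2⟩
      exact ⟨mem_ball_iff_norm.2 h1, mem_ball_zero_iff.2 h2⟩
    · rintro ⟨h1, h2⟩
      exact ⟨mem_ball_iff_norm.1 h1, mem_ball_zero_iff.1 h2⟩
  rw [hset, Measure.volume_eq_prod, ← Measure.prod_restrict]
  exact lintegral_prod_symm F hF

theorem WPL_core (L gn gN : ℂ × ℂ → ℝ) (τ s ρ K : ℝ) (ξ0 : ℂ)
    (hL : ContinuousOn L (P2U.TB 1 τ)) (hL0 : ∀ p ∈ P2U.TB 1 τ, 0 ≤ L p)
    (hn : ContinuousOn gn (P2U.TB 1 τ)) (hn0 : ∀ p, 0 ≤ gn p)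
    (hN : ContinuousOn gN (P2U.TB 1 τ)) (hN0 : ∀ p, 0 ≤ gN p)
    (hK : 0 ≤ K) (hs : 0 < s) (hsτ : 8 * s ≤ τ) (hξ : ‖ξ0‖ ≤ 1 / 16) (hρ : 0 < ρ)
    (hρ1 : ρ ≤ 1 / 16)
    (hdiff : ∀ v : ℂ, ‖v‖ < τ / 2 → |(∫ ξ, eta ξ ^ 2 * (L (ξ, v) * gN (ξ, v))) -
      ∫ ξ, eta ξ ^ 2 * (L (ξ, v) * gn (ξ, v))| ≤ K) :
    0 ≤ ((4 * s) ^ 2)⁻¹ * ∫ v in ball (0 : ℂ) (4 * s), ∫ ξ, eta ξ ^ 2 *
      (L (ξ, v) * gN (ξ, v)) ∧
    ∫⁻ q in RG ξ0 ρ s, ENNReal.ofReal (gn q) * ENNReal.ofReal (L q) ≤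
      ENNReal.ofReal (s ^ 2 * (16 * (((4 * s) ^ 2)⁻¹ * ∫ v in ball (0 : ℂ) (4 * s), ∫ ξ,
        eta ξ ^ 2 * (L (ξ, v) * gN (ξ, v))) + K * Real.pi)) := by
  have hτ : 0 < τ := by linarith
  have hGN : ContinuousOn (fun p => L p * gN p) (P2U.TB 1 τ) := hL.mul hN
  have hGn : ContinuousOn (fun p => L p * gn p) (P2U.TB 1 τ) := hL.mul hn
  have hGN0 : ∀ p ∈ P2U.TB 1 τ, 0 ≤ L p * gN p := fun p hp => mul_nonneg (hL0 p hp) (hN0 p)
  have hGn0 : ∀ p ∈ P2U.TB 1 τ, 0 ≤ L p * gn p := fun p hp => mul_nonneg (hL0 p hp) (hn0 p)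
  obtain ⟨HN, hHN⟩ : ∃ HN : ℂ → ℝ, HN = fun v => ∫ ξ, eta ξ ^ 2 * (L (ξ, v) * gN (ξ, v)) :=
    ⟨_, rfl⟩
  have hHN' : ∀ v, (∫ ξ, eta ξ ^ 2 * (L (ξ, v) * gN (ξ, v))) = HN v := fun v => by rw [hHN]
  have hint : IntegrableOn HN (ball (0 : ℂ) (4 * s)) := by
    rw [hHN]
    exact WPL_outer (fun p => L p * gN p) τ (4 * s) (by linarith) hGN
  have hpos : ∀ v ∈ ball (0 : ℂ) (4 * s), 0 ≤ HN v := by
    intro v hv
    rw [mem_ball_zero_iff] at hv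
    rw [← hHN' v]
    refine integral_nonneg fun ξ => ?_
    exact WPL_nonneg (fun p => L p * gN p) τ hGN0 v (by linarith) ξ
  simp only [hHN'] at hdiff ⊢
  have hI : 0 ≤ ∫ v in ball (0 : ℂ) (4 * s), HN v := setIntegral_nonneg measurableSet_ball hpos
  refine ⟨mul_nonneg (by positivity) hI, ?_⟩
  have hAE : AEMeasurable (fun q => ENNReal.ofReal (gn q) * ENNReal.ofReal (L q))
      (((volume : Measure ℂ).restrict (ball ξ0 (2 * ρ))).prod
        ((volume : Measure ℂ).restrict (ball (0 : ℂ) s))) := by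
    have hsub : ball ξ0 (2 * ρ) ×ˢ ball (0 : ℂ) s ⊆ P2U.TB 1 τ := by
      rintro ⟨a, b⟩ ⟨h1, h2⟩
      have h1' : ‖a - ξ0‖ < 2 * ρ := mem_ball_iff_norm.1 h1
      have h2' : ‖b‖ < s := mem_ball_zero_iff.1 h2
      have h3 : ‖a‖ ≤ ‖a - ξ0‖ + ‖ξ0‖ := by
        have := norm_add_le (a - ξ0) ξ0
        rwa [sub_add_cancel] at this
      exact ⟨by show ‖a‖ < 1; linarith, by show ‖b‖ < τ; linarith⟩
    rw [Measure.prod_restrict]
    have hmeas : MeasurableSet (ball ξ0 (2 * ρ) ×ˢ ball (0 : ℂ) s) :=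
      measurableSet_ball.prod measurableSet_ball
    have m1 : AEMeasurable (fun q => ENNReal.ofReal (gn q))
        (((volume : Measure ℂ).prod (volume : Measure ℂ)).restrict
          (ball ξ0 (2 * ρ) ×ˢ ball (0 : ℂ) s)) :=
      ENNReal.measurable_ofReal.comp_aemeasurable ((hn.mono hsub).aemeasurable hmeas)
    have m2 : AEMeasurable (fun q => ENNReal.ofReal (L q))
        (((volume : Measure ℂ).prod (volume : Measure ℂ)).restrict
          (ball ξ0 (2 * ρ) ×ˢ ball (0 : ℂ) s)) :=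
      ENNReal.measurable_ofReal.comp_aemeasurable ((hL.mono hsub).aemeasurable hmeas)
    exact m1.mul m2
  rw [WPL_tonelli _ ξ0 ρ s hAE]
  have hinner : ∀ v ∈ ball (0 : ℂ) s,
      ∫⁻ ξ in ball ξ0 (2 * ρ), ENNReal.ofReal (gn (ξ, v)) * ENNReal.ofReal (L (ξ, v)) ≤
        ENNReal.ofReal (HN v) + ENNReal.ofReal K := by
    intro v hv
    rw [mem_ball_zero_iff] at hv
    have hvτ : ‖v‖ < τ := by linarith
    have h1 : ∫⁻ ξ in ball ξ0 (2 * ρ), ENNReal.ofReal (gn (ξ, v)) * ENNReal.ofReal (L (ξ, v)) ≤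
        ∫⁻ ξ : ℂ, ENNReal.ofReal (eta ξ ^ 2 * (L (ξ, v) * gn (ξ, v))) := by
      refine le_trans (setLIntegral_mono' measurableSet_ball
        (g := fun ξ => ENNReal.ofReal (eta ξ ^ 2 * (L (ξ, v) * gn (ξ, v)))) ?_)
        (setLIntegral_le_lintegral _ _)
      intro ξ hξ'
      have h1' : ‖ξ - ξ0‖ < 2 * ρ := mem_ball_iff_norm.1 hξ'
      have h3 : ‖ξ‖ ≤ ‖ξ - ξ0‖ + ‖ξ0‖ := by
        have := norm_add_le (ξ - ξ0) ξ0
        rwa [sub_add_cancel] at this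
      rw [WPL_eta_one ξ (by linarith), one_pow, one_mul, mul_comm (L (ξ, v)),
        ENNReal.ofReal_mul (hn0 _)]
    refine h1.trans ?_
    rw [← ofReal_integral_eq_lintegral_ofReal
      (WPL_inner (fun p => L p * gn p) τ hGn v hvτ)
      (Filter.Eventually.of_forall fun ξ =>
        WPL_nonneg (fun p => L p * gn p) τ hGn0 v hvτ ξ)]
    rw [← ENNReal.ofReal_add (hpos v (by rw [mem_ball_zero_iff]; linarith)) hK]
    refine ENNReal.ofReal_le_ofReal ?_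
    have h2 := hdiff v (by linarith)
    have h3 := (abs_le.1 h2).1
    linarith
  calc ∫⁻ v in ball (0 : ℂ) s, ∫⁻ ξ in ball ξ0 (2 * ρ),
        ENNReal.ofReal (gn (ξ, v)) * ENNReal.ofReal (L (ξ, v))
      ≤ ∫⁻ v in ball (0 : ℂ) s, (ENNReal.ofReal (HN v) + ENNReal.ofReal K) :=
        setLIntegral_mono' measurableSet_ball hinner
    _ = (∫⁻ v in ball (0 : ℂ) s, ENNReal.ofReal (HN v)) +
        ∫⁻ v in ball (0 : ℂ) s, ENNReal.ofReal K := lintegral_add_right _ measurable_const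
    _ ≤ (∫⁻ v in ball (0 : ℂ) (4 * s), ENNReal.ofReal (HN v)) +
        ∫⁻ v in ball (0 : ℂ) s, ENNReal.ofReal K := by
        refine add_le_add_left ?_ _
        exact lintegral_mono_set (ball_subset_ball (by linarith))
    _ = ENNReal.ofReal (∫ v in ball (0 : ℂ) (4 * s), HN v) +
        ENNReal.ofReal (K * (s ^ 2 * Real.pi)) := by
        congr 1
        · rw [ofReal_integral_eq_lintegral_ofReal hint]
          rw [Filter.EventuallyLE, ae_restrict_iff' measurableSet_ball]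
          exact Filter.Eventually.of_forall hpos
        · rw [lintegral_const, Measure.restrict_apply MeasurableSet.univ, Set.univ_inter,
            Complex.volume_ball, ENNReal.ofReal_mul hK, ENNReal.ofReal_mul (by positivity),
            ENNReal.ofReal_pow hs.le]
          congr 2
          rw [← NNReal.coe_real_pi, ENNReal.ofReal_coe_nnreal]
    _ = ENNReal.ofReal (s ^ 2 * (16 * (((4 * s) ^ 2)⁻¹ *
        ∫ v in ball (0 : ℂ) (4 * s), HN v) + K * Real.pi)) := by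
        rw [← ENNReal.ofReal_add hI (by positivity)]
        congr 1
        have hs0 : s ≠ 0 := hs.ne'
        field_simp
        ring

theorem WPL (hWM1 : WM1_stmt) (hWLF : WLF_stmt) : WPL_stmt := by
  intro d f U hd τ κ C0 α hτ hκ hκ1 hWC Λ m
  obtain ⟨C, hC, hW⟩ := hWLF d f U hd τ κ C0 α hτ hκ hκ1 hWC Λ m
  refine ⟨C * Real.pi, mul_pos hC Real.pi_pos, ?_⟩
  intro ι c γ n N ξ0 ρ s hTb hnN hξ hρ hρ1 hs hsτ
  obtain ⟨hL, hL0, hdiff⟩ := hW ι c γ hTb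
  obtain ⟨-, -, hgn, hgn0⟩ := hWM1 d f U hd τ κ C0 α hτ hκ hκ1 hWC ι c γ hTb n
  obtain ⟨-, -, hgN, hgN0⟩ := hWM1 d f U hd τ κ C0 α hτ hκ hκ1 hWC ι c γ hTb N
  have hdn : (0 : ℝ) < (d : ℝ) ^ n := by
    have : (0 : ℝ) < (d : ℝ) := by exact_mod_cast (by omega : 0 < d)
    positivity
  have h := WPL_core (Lf f m Λ ι c κ γ) (gt f n ι c κ γ) (gt f N ι c κ γ) τ s ρ
    (C / (d : ℝ) ^ n) ξ0 hL hL0 hgn hgn0 hgN hgN0 (by positivity) hs hsτ hξ hρ hρ1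
    (fun v hv => hdiff n N hnN v hv)
  refine ⟨h.1, ?_⟩
  have e : C * Real.pi / (d : ℝ) ^ n = C / (d : ℝ) ^ n * Real.pi := by ring
  rw [e]
  exact h.2

end Pool.Agent.P2W
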